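import Pool.Agent.H308R2.ZS.Stubs

set_option autoImplicit false

open scoped ComplexConjugate Kronecker Matrix.Norms.L2Operator

namespace Pool.Agent.H308R2.ZS.T_BAI

open Pool.Agent.H923R2.FP Pool.Agent.H923R2.FZ Pool.Agent.H308R2.ZS

theorem t_BAI (hO : S_OPN) : S_BAI := by
  intro B _ τ hτ hb hd
  let X := {x : B // star x = x}
  have hcl : IsClosed {x : B | star x = x} := isClosed_eq continuous_star continuous_id
  haveI : CompleteSpace X := hcl.completeSpace_coe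
  haveI : Nonempty X := ⟨⟨0, star_zero _⟩⟩
  let U : ℕ → Set X := fun m => {x | AT τ (1 / ((m : ℝ) + 1)) x.1}
  have hUo : ∀ m, IsOpen (U m) := by
    intro m
    rw [Metric.isOpen_iff]
    rintro ⟨x, hx⟩ hxU
    obtain ⟨δ, hδ, h⟩ := hO B τ hτ hb x _ hx hxU
    refine ⟨δ, hδ, ?_⟩
    rintro ⟨y, hy⟩ hyx
    refine h y hy ?_
    rw [Metric.mem_ball, Subtype.dist_eq, dist_eq_norm] at hyx
    exact hyx
  have hUd : ∀ m, Dense (U m) := by
    intro m
    rw [Metric.dense_iff]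
    rintro ⟨x, hx⟩ r hr
    obtain ⟨y, hy, hyx, hA⟩ := hd (1 / ((m : ℝ) + 1)) (by positivity) x hx r hr
    refine ⟨⟨y, hy⟩, ?_, hA⟩
    rw [Metric.mem_ball, Subtype.dist_eq, dist_eq_norm]
    exact hyx
  have h := dense_iInter_of_isOpen hUo hUd
  obtain ⟨⟨x, hx⟩, hxU⟩ := h.nonempty
  refine ⟨x, hx, ?_⟩
  intro ε hε c
  obtain ⟨m, hm⟩ := exists_nat_one_div_lt hε
  obtain ⟨F, hF1, hF2, hF3, hF4⟩ := (Set.mem_iInter.mp hxU m) c
  exact ⟨F, hF1, hF2, hF3, hF4.trans hm⟩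

end Pool.Agent.H308R2.ZS.T_BAI
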