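import Pool.Agent.H308R2.ZS.Stubs

set_option autoImplicit false

open scoped ComplexConjugate Kronecker Matrix.Norms.L2Operator

namespace Pool.Agent.H308R2.ZS.T_FIBM

open Pool.Agent.H923R2.FP Pool.Agent.H923R2.FZ Pool.Agent.H308R2.ZS

theorem all_of_units {ι : Type} [Fintype ι] [DecidableEq ι] (P : Matrix ι ι ℂ → Prop)
    (h0 : P 0) (hadd : ∀ x y, P x → P y → P (x + y)) (hsmul : ∀ (c : ℂ) x, P x → P (c • x))
    (hu : ∀ a b, P (Matrix.single a b 1)) (M : Matrix ι ι ℂ) : P M := by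
  rw [Matrix.matrix_eq_sum_single M]
  have hsum : ∀ (s : Finset ι) (f : ι → Matrix ι ι ℂ), (∀ a, P (f a)) → P (∑ a ∈ s, f a) := by
    intro s f hf
    induction s using Finset.induction_on with
    | empty => simpa using h0
    | insert a s ha ih => rw [Finset.sum_insert ha]; exact hadd _ _ (hf a) ih
  refine hsum _ _ fun a => hsum _ _ fun b => ?_
  have : Matrix.single a b (M a b) = (M a b) • (Matrix.single a b 1 : Matrix ι ι ℂ) := by
    rw [Matrix.smul_single, smul_eq_mul, mul_one]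
  rw [this]
  exact hsmul _ _ (hu a b)

theorem D0V0 (n : ℕ) (i : Fin (n + 1)) (c s : ℝ) (p q : Ix n) :
    (D0 n i 0 c * V0 n s) p q =
      if p.1 = i ∧ q.2 = Fin.last (n + 1) ∧ p.2 = q.1.castSucc then (s : ℂ) else 0 := by
  rw [Matrix.mul_apply, Finset.sum_eq_single (0, p.2)]
  · simp only [D0, V0, Matrix.of_apply]
    by_cases h1 : p.1 = i
    · by_cases h2 : q.2 = Fin.last (n + 1) ∧ p.2 = q.1.castSucc
      · have h3 : p.2 ≠ Fin.last (n + 1) := by
          rw [h2.2]; exact (Fin.castSucc_lt_last _).ne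
        simp [h1, h2.1, h2.2, (Fin.castSucc_lt_last q.1).ne]
      · have h3 : ¬ (q.2 = Fin.last (n + 1) ∧ p.2 = q.1.castSucc) := h2
        simp [h1, h3]
    · simp [h1]
  · intro r _ hr
    have : ¬ (p.1 = i ∧ r.1 = 0 ∧ p.2 = r.2) := by
      rintro ⟨-, h1, h2⟩
      exact hr (Prod.ext h1 h2.symm)
    simp only [D0, Matrix.of_apply, this, if_false, zero_mul]
  · intro h; exact absurd (Finset.mem_univ _) h

theorem DVD (n : ℕ) (i j j' : Fin (n + 1)) (c s : ℝ) :
    D0 n i 0 c * V0 n s * D0 n j j' c =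
      ((s : ℂ) * (c : ℂ)) • Matrix.single (i, j.castSucc) (j', Fin.last (n + 1)) 1 := by
  ext p q
  rw [Matrix.mul_apply, Finset.sum_eq_single (j, q.2)]
  · rw [D0V0]
    simp only [D0, Matrix.of_apply, Matrix.smul_apply, Matrix.single_apply, smul_eq_mul,
      Prod.ext_iff]
    by_cases h1 : p.1 = i
    · by_cases h2 : q.2 = Fin.last (n + 1)
      · by_cases h3 : p.2 = j.castSucc
        · by_cases h4 : q.1 = j'
          · simp [h1, h2, h3, h4]
          · have h4' : ¬ j' = q.1 := fun h => h4 h.symm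
            simp [h1, h2, h3, h4, h4']
        · have h3' : ¬ j.castSucc = p.2 := fun h => h3 h.symm
          simp [h1, h2, h3, h3']
      · have h2' : ¬ Fin.last (n + 1) = q.2 := fun h => h2 h.symm
        simp [h1, h2, h2']
    · have h1' : ¬ i = p.1 := fun h => h1 h.symm
      simp [h1, h1']
  · intro r _ hr
    have : ¬ (r.1 = j ∧ q.1 = j' ∧ r.2 = q.2) := by
      rintro ⟨h1, -, h2⟩
      exact hr (Prod.ext h1 h2)
    simp only [D0, Matrix.of_apply, this, if_false, mul_zero]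
  · intro h; exact absurd (Finset.mem_univ _) h

theorem t_FIBM (hWU : S_WU) : S_FIBM := by
  classical
  intro n φ k v hV S hφ hv t ht0 ht1
  obtain ⟨-, -, -, -, -, -, -, hW⟩ := hWU n
  obtain ⟨hW1, hW2⟩ := hW t
  set W := WW n t with hWd
  have hmul : ∀ x y, (∃ G ∈ S, G t = W * x * star W) → (∃ G ∈ S, G t = W * y * star W) →
      ∃ G ∈ S, G t = W * (x * y) * star W := by
    rintro x y ⟨G, hG, hGx⟩ ⟨G', hG', hGy⟩
    refine ⟨G * G', S.mul_mem hG hG', ?_⟩
    rw [ContinuousMap.mul_apply, hGx, hGy]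
    calc W * x * star W * (W * y * star W) = W * x * (star W * W) * y * star W := by noncomm_ring
      _ = _ := by rw [hW2]; noncomm_ring
  have hstar : ∀ x, (∃ G ∈ S, G t = W * x * star W) → ∃ G ∈ S, G t = W * star x * star W := by
    rintro x ⟨G, hG, hGx⟩
    refine ⟨star G, star_mem hG, ?_⟩
    rw [ContinuousMap.star_apply, hGx, star_mul, star_mul, star_star, mul_assoc]
  have hsmul : ∀ (c : ℂ) x, (∃ G ∈ S, G t = W * x * star W) →
      ∃ G ∈ S, G t = W * (c • x) * star W := by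
    rintro c x ⟨G, hG, hGx⟩
    refine ⟨c • G, S.smul_mem hG c, ?_⟩
    rw [ContinuousMap.smul_apply, hGx, mul_smul_comm, smul_mul_assoc]
  have hadd : ∀ x y, (∃ G ∈ S, G t = W * x * star W) → (∃ G ∈ S, G t = W * y * star W) →
      ∃ G ∈ S, G t = W * (x + y) * star W := by
    rintro x y ⟨G, hG, hGx⟩ ⟨G', hG', hGy⟩
    refine ⟨G + G', S.add_mem hG hG', ?_⟩
    rw [ContinuousMap.add_apply, hGx, hGy, mul_add, add_mul]
  have hD : ∀ i j, ∃ G ∈ S, G t = W * D0 n i j (1 - t) * star W := fun i j =>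
    ⟨φ i j, hφ i j, hV.ph i j t⟩
  have hVV : ∃ G ∈ S, G t = W * V0 n (Real.sqrt t) * star W := ⟨v, hv, hV.vh t⟩
  have ht0' : (0 : ℝ) < t := lt_of_le_of_ne t.2.1 (fun h => ht0 (Subtype.ext h.symm))
  have ht1' : (t : ℝ) < 1 := lt_of_le_of_ne t.2.2 (fun h => ht1 (Subtype.ext h))
  have hsc : ((Real.sqrt t : ℝ) : ℂ) * ((1 - (t : ℝ) : ℝ) : ℂ) ≠ 0 := by
    apply mul_ne_zero
    · exact_mod_cast (Real.sqrt_pos.mpr ht0').ne'
    · exact_mod_cast (sub_pos.mpr ht1').ne'
  have hE : ∀ i j j' : Fin (n + 1), ∃ G ∈ S, G t =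
      W * (Matrix.single (i, j.castSucc) (j', Fin.last (n + 1)) 1 : MM n) * star W := by
    intro i j j'
    have h1 := hmul _ _ (hmul _ _ (hD i 0) hVV) (hD j j')
    rw [DVD] at h1
    have h2 := hsmul ((((Real.sqrt t : ℝ) : ℂ) * ((1 - (t : ℝ) : ℝ) : ℂ))⁻¹) _ h1
    rwa [smul_smul, inv_mul_cancel₀ hsc, one_smul] at h2
  have hE' : ∀ i j j' : Fin (n + 1), ∃ G ∈ S, G t =
      W * (Matrix.single (j', Fin.last (n + 1)) (i, j.castSucc) 1 : MM n) * star W := by
    intro i j j'
    have h1 := hstar _ (hE i j j')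
    rwa [Matrix.star_eq_conjTranspose, Matrix.conjTranspose_single, star_one] at h1
  have hall : ∀ x : MM n, ∃ G ∈ S, G t = W * x * star W := by
    intro x
    refine all_of_units (fun x => ∃ G ∈ S, G t = W * x * star W) ?_ hadd hsmul ?_ x
    · exact ⟨0, S.zero_mem, by rw [ContinuousMap.zero_apply, mul_zero, zero_mul]⟩
    · rintro ⟨a1, a2⟩ ⟨b1, b2⟩
      induction a2 using Fin.lastCases with
      | last =>
        induction b2 using Fin.lastCases with
        | last =>
          have := hmul _ _ (hE' 0 0 a1) (hE 0 0 b1)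
          rwa [Matrix.single_mul_single_same, mul_one] at this
        | cast j => exact hE' b1 j a1
      | cast i =>
        induction b2 using Fin.lastCases with
        | last => exact hE a1 i b1
        | cast j =>
          have := hmul _ _ (hE a1 i 0) (hE' b1 j 0)
          rwa [Matrix.single_mul_single_same, mul_one] at this
  intro M
  obtain ⟨G, hG, hGM⟩ := hall (star W * M * W)
  refine ⟨G, hG, ?_⟩
  rw [hGM]
  calc W * (star W * M * W) * star W = (W * star W) * M * (W * star W) := by noncomm_ring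
    _ = M := by rw [hW1, one_mul, mul_one]

end Pool.Agent.H308R2.ZS.T_FIBM
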