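import Pool.Agent.H308R2.ZS.Stubs

set_option autoImplicit false

open scoped ComplexConjugate Kronecker Matrix.Norms.L2Operator

namespace Pool.Agent.H308R2.ZS.T_MSW

open Pool.Agent.H923R2.FP Pool.Agent.H923R2.FZ Pool.Agent.H308R2.ZS

/-- `f ↦ f · 1` -/
noncomputable def Phi (n : ℕ) : C(unitInterval, ℂ) →⋆ₐ[ℂ] C(unitInterval, MM n) :=
  ContinuousMap.compStarAlgHom unitInterval (StarAlgHom.ofId ℂ (MM n))
    (continuous_algebraMap ℂ (MM n))

theorem Phi_apply (n : ℕ) (f : C(unitInterval, ℂ)) (t : unitInterval) :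
    Phi n f t = f t • (1 : MM n) := by
  change algebraMap ℂ (MM n) (f t) = _
  exact Algebra.algebraMap_eq_smul_one _

theorem Phi_mem (n : ℕ) (S : StarSubalgebra ℂ C(unitInterval, MM n))
    (hS : IsClosed (S : Set C(unitInterval, MM n)))
    (hz : ∃ z ∈ S, ∀ t : unitInterval, z t = ((t : ℝ) : ℂ) • (1 : MM n))
    (f : C(unitInterval, ℂ)) : Phi n f ∈ S := by
  obtain ⟨z, hzS, hz⟩ := hz
  have hc : Continuous (Phi n) := by
    apply ContinuousMap.continuous_postcomp
  have hcl : IsClosed ((S.comap (Phi n) : StarSubalgebra ℂ C(unitInterval, ℂ)) :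
      Set C(unitInterval, ℂ)) := hS.preimage hc
  have hsep : (S.comap (Phi n)).SeparatesPoints := by
    intro s t hst
    let g : C(unitInterval, ℂ) := ⟨fun t => ((t : ℝ) : ℂ), by fun_prop⟩
    have hg : g ∈ S.comap (Phi n) := by
      change Phi n g ∈ S
      have : Phi n g = z := by
        ext1 t
        rw [Phi_apply, hz]; rfl
      rw [this]; exact hzS
    refine ⟨g, ⟨g, hg, rfl⟩, ?_⟩
    intro h
    apply hst
    have : ((s : ℝ) : ℂ) = ((t : ℝ) : ℂ) := h
    exact Subtype.ext (by exact_mod_cast this)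
  have htop := ContinuousMap.starSubalgebra_topologicalClosure_eq_top_of_separatesPoints
    (S.comap (Phi n)) hsep
  have hcl' : (S.comap (Phi n)).topologicalClosure = S.comap (Phi n) := by
    apply le_antisymm
    · exact StarSubalgebra.topologicalClosure_minimal le_rfl hcl
    · exact StarSubalgebra.le_topologicalClosure _
  rw [hcl'] at htop
  have : f ∈ S.comap (Phi n) := by rw [htop]; trivial
  exact this

theorem t_MSW : S_MSW := by
  classical
  intro n S hS hz F hF
  have hPhi := Phi_mem n S hS hz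
  have hcl : F ∈ closure (S : Set C(unitInterval, MM n)) := by
    rw [Metric.mem_closure_iff]
    intro ε hε
    choose G hGS hGt using hF
    let U : unitInterval → Set unitInterval := fun t => {s | ‖F s - G t s‖ < ε / 2}
    have hUo : ∀ t, IsOpen (U t) := fun t =>
      isOpen_lt ((F.continuous.sub (G t).continuous).norm) continuous_const
    have hUt : ∀ t, t ∈ U t := fun t => by
      change ‖F t - G t t‖ < ε / 2
      rw [hGt, sub_self, norm_zero]; positivity
    obtain ⟨T, hT⟩ := isCompact_univ.elim_finite_subcover U hUo (fun t _ =>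
      Set.mem_iUnion.mpr ⟨t, hUt t⟩)
    obtain ⟨f, hf⟩ := PartitionOfUnity.exists_isSubordinate (ι := T) (X := unitInterval)
      isClosed_univ (fun i : T => U i.1) (fun i => hUo i.1) (by
        intro t ht
        have := hT ht
        simp only [Set.mem_iUnion] at this ⊢
        obtain ⟨i, hi, hti⟩ := this
        exact ⟨⟨i, hi⟩, hti⟩)
    let fc : T → C(unitInterval, ℂ) := fun i => ⟨fun t => ((f i t : ℝ) : ℂ), by fun_prop⟩
    refine ⟨∑ i : T, Phi n (fc i) * G i.1, ?_, ?_⟩
    · exact S.sum_mem fun i _ => S.mul_mem (hPhi _) (hGS _)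
    · rw [dist_eq_norm]
      refine lt_of_le_of_lt ?_ (half_lt_self hε)
      rw [ContinuousMap.norm_le _ (by positivity)]
      intro s
      have hsum : ∑ i : T, f i s = 1 := by
        have := f.sum_eq_one (Set.mem_univ s)
        rwa [finsum_eq_sum_of_fintype] at this
      have e1 : (F - ∑ i : T, Phi n (fc i) * G i.1) s =
          ∑ i : T, ((f i s : ℝ) : ℂ) • (F s - G i.1 s) := by
        rw [ContinuousMap.sub_apply, ContinuousMap.sum_apply]
        simp only [ContinuousMap.mul_apply, Phi_apply, smul_mul_assoc, one_mul, smul_sub,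
          Finset.sum_sub_distrib]
        congr 1
        rw [← Finset.sum_smul]
        have : ∑ i : T, ((f i s : ℝ) : ℂ) = 1 := by
          rw [← Complex.ofReal_sum, hsum, Complex.ofReal_one]
        rw [this, one_smul]
      rw [e1]
      calc ‖∑ i : T, ((f i s : ℝ) : ℂ) • (F s - G i.1 s)‖
          ≤ ∑ i : T, ‖((f i s : ℝ) : ℂ) • (F s - G i.1 s)‖ := norm_sum_le _ _
        _ ≤ ∑ i : T, f i s * (ε / 2) := by
            refine Finset.sum_le_sum fun i _ => ?_
            rw [norm_smul, Complex.norm_real, Real.norm_of_nonneg (f.nonneg i s)]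
            by_cases h0 : f i s = 0
            · rw [h0, zero_mul, zero_mul]
            · have : s ∈ U i.1 := hf i (subset_tsupport _ h0)
              exact mul_le_mul_of_nonneg_left (le_of_lt this) (f.nonneg i s)
        _ = ε / 2 := by rw [← Finset.sum_mul, hsum, one_mul]
  rwa [hS.closure_eq] at hcl

end Pool.Agent.H308R2.ZS.T_MSW
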