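import Pool.Agent.H308R2.ZS.Stubs

set_option autoImplicit false

open scoped ComplexConjugate Kronecker Matrix.Norms.L2Operator

namespace Pool.Agent.H308R2.ZS.T_TSB

open Pool.Agent.H923R2.FP Pool.Agent.H923R2.FZ Pool.Agent.H308R2.ZS

theorem expand {B : Type} [CStarAlgebra B] (τ : B →ₗ[ℂ] ℂ) (h1 : τ 1 = 1) (x : B) (c : ℂ) :
    τ (star (x + c • 1) * (x + c • 1)) =
      τ (star x * x) + conj c * τ x + c * τ (star x) + conj c * c := by
  have : star (x + c • (1 : B)) * (x + c • 1) =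
      star x * x + (conj c) • x + c • star x + (conj c * c) • (1 : B) := by
    rw [star_add, star_smul, star_one, add_mul, mul_add, mul_add, smul_mul_assoc, one_mul,
      mul_smul_comm, mul_one, smul_mul_smul_comm, one_mul]
    simp only [starRingEnd_apply]
    abel
  rw [this]
  simp only [map_add, map_smul, smul_eq_mul, h1, mul_one]

theorem t_TSB : S_TSB := by
  intro B _ τ hτ
  have hstar : ∀ x, τ (star x) = conj (τ x) := by
    intro x
    have e0 := (hτ.pos x).2
    have e1 := (hτ.pos (x + (1 : ℂ) • 1)).2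
    have e2 := (hτ.pos (x + Complex.I • 1)).2
    rw [expand τ hτ.one] at e1 e2
    simp at e1 e2
    apply Complex.ext
    · simp
      linarith
    · simp
      linarith
  refine ⟨?_, hstar⟩
  intro x
  have h1 : ‖τ x‖ ^ 2 ≤ (τ (star x * x)).re := by
    have e := (hτ.pos (x + (-τ x) • 1)).1
    rw [expand τ hτ.one, hstar] at e
    have e3 : conj (-τ x) * τ x + (-τ x) * conj (τ x) + conj (-τ x) * (-τ x) =
        -((‖τ x‖ ^ 2 : ℝ) : ℂ) := by
      have : conj (τ x) * τ x = ((‖τ x‖ ^ 2 : ℝ) : ℂ) := by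
        rw [mul_comm, Complex.mul_conj, Complex.normSq_eq_norm_sq]
      rw [← this, map_neg]
      ring
    have e4 : τ (star x * x) + conj (-τ x) * τ x + (-τ x) * conj (τ x) + conj (-τ x) * (-τ x) =
        τ (star x * x) + -((‖τ x‖ ^ 2 : ℝ) : ℂ) := by
      rw [← e3]; ring
    rw [e4, Complex.add_re, Complex.neg_re, Complex.ofReal_re] at e
    linarith
  have h2 : (τ (star x * x)).re ≤ ‖x‖ ^ 2 := by
    letI := CStarAlgebra.spectralOrder B
    letI := CStarAlgebra.spectralOrderedRing B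
    have e1 : star x * x ≤ algebraMap ℝ B (‖x‖ ^ 2) := CStarAlgebra.star_mul_le_algebraMap_norm_sq
    have e2 : 0 ≤ algebraMap ℝ B (‖x‖ ^ 2) - star x * x := sub_nonneg.mpr e1
    obtain ⟨y, hy⟩ := CStarAlgebra.nonneg_iff_eq_star_mul_self.mp e2
    have e3 := (hτ.pos y).1
    rw [← hy, map_sub] at e3
    have e4 : τ (algebraMap ℝ B (‖x‖ ^ 2)) = ((‖x‖ ^ 2 : ℝ) : ℂ) := by
      have : algebraMap ℝ B (‖x‖ ^ 2) = ((‖x‖ ^ 2 : ℝ) : ℂ) • (1 : B) := by
        rw [Algebra.algebraMap_eq_smul_one, Complex.coe_smul]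
      rw [this, map_smul, hτ.one, smul_eq_mul, mul_one]
    rw [e4, Complex.sub_re, Complex.ofReal_re] at e3
    linarith
  exact (pow_le_pow_iff_left₀ (norm_nonneg _) (norm_nonneg _) two_ne_zero).mp (h1.trans h2)

end Pool.Agent.H308R2.ZS.T_TSB
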