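import Pool.Agent.H308R2.ZS.Stubs

set_option autoImplicit false

open scoped ComplexConjugate Kronecker Matrix.Norms.L2Operator

namespace Pool.Agent.H308R2.ZS.T_FIB01

open Pool.Agent.H923R2.FP Pool.Agent.H923R2.FZ Pool.Agent.H308R2.ZS

theorem all_of_units {ι : Type} [Fintype ι] [DecidableEq ι] (P : Matrix ι ι ℂ → Prop)
    (h0 : P 0) (hadd : ∀ x y, P x → P y → P (x + y)) (hsmul : ∀ (c : ℂ) x, P x → P (c • x))
    (hu : ∀ a b, P (Matrix.single a b 1)) (M : Matrix ι ι ℂ) : P M := by
  rw [Matrix.matrix_eq_sum_single M]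
  have hsum : ∀ (s : Finset ι) (f : ι → Matrix ι ι ℂ), (∀ a, P (f a)) → P (∑ a ∈ s, f a) := by
    intro s f hf
    induction s using Finset.induction_on with
    | empty => simpa using h0
    | insert a s ha ih => rw [Finset.sum_insert ha]; exact hadd _ _ (hf a) ih
  refine hsum _ _ fun a => hsum _ _ fun b => ?_
  have : Matrix.single a b (M a b) = (M a b) • (Matrix.single a b 1 : Matrix ι ι ℂ) := by
    rw [Matrix.smul_single, smul_eq_mul, mul_one]
  rw [this]
  exact hsmul _ _ (hu a b)

theorem flp_last (n : ℕ) (i : Fin (n + 1)) : flp n (i, Fin.last (n + 1)) = (i, Fin.last (n + 1)) := by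
  simp [flp]

theorem flp_cast (n : ℕ) (i k : Fin (n + 1)) : flp n (i, k.castSucc) = (k, i.castSucc) := by
  simp [flp]

theorem D0_one (n : ℕ) (i j : Fin (n + 1)) : D0 n i j (1 - 0) = lft n (Matrix.single i j 1) := by
  ext p q
  simp only [D0, lft, Matrix.of_apply, Matrix.kroneckerMap_apply, Matrix.single_apply,
    Matrix.one_apply, sub_zero, Complex.ofReal_one, ite_self]
  by_cases h1 : i = p.1 <;> by_cases h2 : j = q.1 <;> by_cases h3 : p.2 = q.2 <;>
    simp [h1, h2, h3, eq_comm]

theorem D0_flp (n : ℕ) (i j : Fin (n + 1)) (p q : Ix n) :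
    D0 n i j (1 - 1) (flp n p) (flp n q) =
      rgt n (Matrix.single i.castSucc j.castSucc 1) p q := by
  obtain ⟨p1, p2⟩ := p
  obtain ⟨q1, q2⟩ := q
  induction p2 using Fin.lastCases with
  | last =>
    rw [flp_last]
    have h1 : ¬ i.castSucc = Fin.last (n + 1) := (Fin.castSucc_lt_last i).ne
    simp [D0, rgt, Matrix.kroneckerMap_apply, Matrix.single_apply, h1]
  | cast k =>
    rw [flp_cast]
    induction q2 using Fin.lastCases with
    | last =>
      rw [flp_last]
      have h1 : ¬ p1.castSucc = Fin.last (n + 1) := (Fin.castSucc_lt_last p1).ne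
      have h2 : ¬ j.castSucc = Fin.last (n + 1) := (Fin.castSucc_lt_last j).ne
      simp [D0, rgt, Matrix.kroneckerMap_apply, Matrix.single_apply, h1, h2]
    | cast l =>
      rw [flp_cast]
      have h1 : ¬ p1.castSucc = Fin.last (n + 1) := (Fin.castSucc_lt_last p1).ne
      simp only [D0, rgt, Matrix.of_apply, Matrix.kroneckerMap_apply, Matrix.single_apply,
        Matrix.one_apply, h1, if_false, Fin.castSucc_inj]
      have e1 : (i = k) = (k = i) := propext eq_comm
      have e2 : (j = l) = (l = j) := propext eq_comm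
      simp only [e1, e2]
      by_cases h2 : k = i <;> by_cases h3 : l = j <;> by_cases h4 : p1 = q1 <;>
        simp [h2, h3, h4]

theorem V0_flp (n : ℕ) (p q : Ix n) :
    V0 n 1 (flp n p) (flp n q) =
      rgt n (Matrix.single (0 : Fin (n + 1)).castSucc (Fin.last (n + 1)) 1) p q := by
  obtain ⟨p1, p2⟩ := p
  obtain ⟨q1, q2⟩ := q
  induction q2 using Fin.lastCases with
  | cast l =>
    rw [flp_cast]
    have h1 : ¬ q1.castSucc = Fin.last (n + 1) := (Fin.castSucc_lt_last q1).ne
    have h2 : ¬ Fin.last (n + 1) = l.castSucc := fun h => (Fin.castSucc_lt_last l).ne h.symm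
    simp [V0, rgt, Matrix.kroneckerMap_apply, Matrix.single_apply, h1, h2]
  | last =>
    rw [flp_last]
    induction p2 using Fin.lastCases with
    | last =>
      rw [flp_last]
      have h1 : ¬ Fin.last (n + 1) = q1.castSucc := fun h => (Fin.castSucc_lt_last q1).ne h.symm
      have h2 : ¬ (0 : Fin (n + 1)).castSucc = Fin.last (n + 1) := (Fin.castSucc_lt_last 0).ne
      simp only [V0, rgt, Matrix.of_apply, Matrix.kroneckerMap_apply, Matrix.single_apply, h1, h2]
      simp
    | cast k =>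
      rw [flp_cast]
      simp only [V0, rgt, Matrix.of_apply, Matrix.kroneckerMap_apply, Matrix.single_apply,
        Matrix.one_apply, Fin.castSucc_inj]
      by_cases h2 : k = 0 <;> by_cases h4 : p1 = q1 <;> simp [h2, h4, eq_comm]

theorem t_FIB01 (hWU : S_WU) : S_FIB01 := by
  classical
  intro n φ k v hV S hφ hv
  obtain ⟨-, hst, hsq, hPM, -, hW0, hW1, -⟩ := hWU n
  have h00 : ((0 : unitInterval) : ℝ) = 0 := rfl
  have h11 : ((1 : unitInterval) : ℝ) = 1 := rfl
  refine ⟨?_, ?_⟩
  · intro x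
    refine all_of_units (fun x => ∃ G ∈ S, G 0 = lft n x) ?_ ?_ ?_ ?_ x
    · exact ⟨0, S.zero_mem, by
        rw [ContinuousMap.zero_apply]
        exact (Matrix.zero_kronecker _).symm⟩
    · rintro x y ⟨G, hG, hGx⟩ ⟨G', hG', hGy⟩
      exact ⟨G + G', S.add_mem hG hG', by rw [ContinuousMap.add_apply, hGx, hGy, lft_add]⟩
    · rintro c x ⟨G, hG, hGx⟩
      exact ⟨c • G, S.smul_mem hG c, by rw [ContinuousMap.smul_apply, hGx, lft_smul]⟩
    · intro i j
      refine ⟨φ i j, hφ i j, ?_⟩
      rw [hV.ph i j 0, phf, h00, hW0, star_one, one_mul, mul_one, D0_one]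
  · have hmul : ∀ x y, (∃ G ∈ S, G 1 = rgt n x) → (∃ G ∈ S, G 1 = rgt n y) →
        ∃ G ∈ S, G 1 = rgt n (x * y) := by
      rintro x y ⟨G, hG, hGx⟩ ⟨G', hG', hGy⟩
      exact ⟨G * G', S.mul_mem hG hG', by rw [ContinuousMap.mul_apply, hGx, hGy, rgt_mul]⟩
    have hstar : ∀ x, (∃ G ∈ S, G 1 = rgt n x) → ∃ G ∈ S, G 1 = rgt n (star x) := by
      rintro x ⟨G, hG, hGx⟩
      exact ⟨star G, star_mem hG, by rw [ContinuousMap.star_apply, hGx, rgt_star]⟩
    have hcc : ∀ i j : Fin (n + 1),
        ∃ G ∈ S, G 1 = rgt n (Matrix.single i.castSucc j.castSucc 1) := by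
      intro i j
      refine ⟨φ i j, hφ i j, ?_⟩
      rw [hV.ph i j 1, phf, h11, hW1, hst]
      ext p q
      rw [hPM, D0_flp]
    have hcl0 : ∃ G ∈ S, G 1 = rgt n (Matrix.single (0 : Fin (n + 1)).castSucc
        (Fin.last (n + 1)) 1) := by
      refine ⟨v, hv, ?_⟩
      rw [hV.vh 1, vhf, h11, hW1, hst, Real.sqrt_one]
      ext p q
      rw [hPM, V0_flp]
    have hcl : ∀ i : Fin (n + 1), ∃ G ∈ S, G 1 = rgt n (Matrix.single i.castSucc
        (Fin.last (n + 1)) 1) := by
      intro i
      have := hmul _ _ (hcc i 0) hcl0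
      rwa [Matrix.single_mul_single_same, mul_one] at this
    have hlc : ∀ i : Fin (n + 1), ∃ G ∈ S, G 1 = rgt n (Matrix.single (Fin.last (n + 1))
        i.castSucc 1) := by
      intro i
      have := hstar _ (hcl i)
      rwa [Matrix.star_eq_conjTranspose, Matrix.conjTranspose_single, star_one] at this
    have hll : ∃ G ∈ S, G 1 = rgt n (Matrix.single (Fin.last (n + 1)) (Fin.last (n + 1)) 1) := by
      have := hmul _ _ (hlc 0) (hcl 0)
      rwa [Matrix.single_mul_single_same, mul_one] at this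
    intro y
    refine all_of_units (fun x => ∃ G ∈ S, G 1 = rgt n x) ?_ ?_ ?_ ?_ y
    · exact ⟨0, S.zero_mem, by
        rw [ContinuousMap.zero_apply]
        exact (Matrix.kronecker_zero _).symm⟩
    · rintro x y ⟨G, hG, hGx⟩ ⟨G', hG', hGy⟩
      exact ⟨G + G', S.add_mem hG hG', by rw [ContinuousMap.add_apply, hGx, hGy, rgt_add]⟩
    · rintro c x ⟨G, hG, hGx⟩
      exact ⟨c • G, S.smul_mem hG c, by rw [ContinuousMap.smul_apply, hGx, rgt_smul]⟩
    · intro a b
      induction a using Fin.lastCases with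
      | last =>
        induction b using Fin.lastCases with
        | last => exact hll
        | cast j => exact hlc j
      | cast i =>
        induction b using Fin.lastCases with
        | last => exact hcl i
        | cast j => exact hcc i j

end Pool.Agent.H308R2.ZS.T_FIB01
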